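import Pool.Agent.P.MP_d74cc6_pr.H.Final

open MeasureTheory Pool.Agent.P.MP_d74cc6_pr.H

namespace Pool.Agent.Results.MP_d74cc6_pr.Schrodinger

/-- For supercritical bond percolation the expected spectral measure of `A + W + f (deg)` has a
continuous part of mass at least `c (d, p) > 0`, for every function `f` of the degree and every
bounded stationary random potential `W` independent of the percolation. -/
theorem result (d : ℕ) (hd : 2 ≤ d) (p : unitInterval) (hp : pc d < p) :
    ∃ c : ℝ, 0 < c ∧ ∀ (f : ℕ → ℝ) (Q : Measure ((Fin d → ℤ) → ℝ)) [IsProbabilityMeasure Q],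
      (∀ a, Q.map (fun W x => W (x + a)) = Q) → (∃ B : ℝ, ∀ᵐ W ∂Q, ∀ x, |W x| ≤ B) →
      ∃ μ : Measure ℝ, (∀ ν, IsSpec d p f Q ν ↔ ν = μ) ∧
        ∀ S : Set ℝ, S.Countable → μ.real S ≤ 1 - c :=
  final d hd p hp

end Pool.Agent.Results.MP_d74cc6_pr.Schrodinger
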